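import Pool.Agent.X271.VTri

/-!
# Local v-numbers need not increase along the powers of an ideal

For every field `K` and every `N ≥ 3` the homogeneous ideal
`I = (xy, yz, zx, (x+y+z)^N)` of `K[x,y,z]` and the prime `p = (x,y,z)`, which is associated to
every power of `I`, satisfy `v_p(I) = N` and `v_p(I²) = 3`.
-/

namespace Pool.Agent.Results.MP_a79530_al.LocalVNumberDrops

open MvPolynomial Pool.Agent.X271.VNum Pool.Agent.X271.VTri

theorem result :
    (∀ (K : Type*) [Field K] (N : ℕ), 3 ≤ N →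
      IsHomog (triIdeal K N) ∧ triIdeal K N ≠ ⊥ ∧ triIdeal K N ≠ ⊤ ∧
      (∀ k : ℕ, 1 ≤ k → idealOfVars (Fin 3) K ∈
        associatedPrimes (MvPolynomial (Fin 3) K) (MvPolynomial (Fin 3) K ⧸ triIdeal K N ^ k)) ∧
      localV (idealOfVars (Fin 3) K) (triIdeal K N) = N ∧
      localV (idealOfVars (Fin 3) K) (triIdeal K N ^ 2) = 3) :=
  fun _ _ _ hN => ⟨triIdeal_isHomog, triIdeal_ne_bot, triIdeal_ne_top (by omega),
    fun _ hk => vars_mem_ass (by omega) hk,
    localV_tri (by omega), localV_tri_sq (by omega)⟩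

end Pool.Agent.Results.MP_a79530_al.LocalVNumberDrops
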